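import Mathlib
import Pool.Agent.V110.WI.Main

/-!
# MP_2c3223_an: products of weakly invertible functions need not be weakly invertible

For every `p ≥ 1` there are a symmetric measure `μ` on the closed unit disc and a function
`g ∈ E^p(μ)` such that `g` is weakly invertible in `E^p(μ)`, `g² ∈ E^p(μ)`, but `g²` is not weakly
invertible in `E^p(μ)`.
-/

set_option autoImplicit false

open Filter Topology Set Metric MeasureTheory
open scoped Real ENNReal

namespace Pool.Agent.Results.MP_2c3223_an.SquareNotWeaklyInvertible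

/-- The radial part `ν` of a symmetric measure `dμ(s e^{iθ}) = (2π)⁻¹ dν(s) dθ`: a finite Borel
measure on `[0,1]` with `ν({0}) = 0` and `ν([τ,1]) > 0` for all `0 ≤ τ < 1`. -/
structure IsRadial (ν : Measure ℝ) : Prop where
  finite : ν univ < ⊤
  supp : ν (Icc 0 1)ᶜ = 0
  zero : ν {0} = 0
  pos : ∀ τ : ℝ, 0 ≤ τ → τ < 1 → 0 < ν (Icc τ 1)

/-- `M_p(τ; F; μ) = (∫ |F(τ w)|^p dμ(w))^{1/p}` -/
noncomputable def M (p : ℝ) (ν : Measure ℝ) (F : ℂ → ℂ) (τ : ℝ) : ℝ≥0∞ :=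
  (∫⁻ s : ℝ, ((ENNReal.ofReal (2 * π))⁻¹ * (∫⁻ θ : ℝ in Ioc (0 : ℝ) (2 * π),
    ENNReal.ofReal (‖F (τ * (s * Complex.exp (θ * Complex.I)))‖ ^ p))) ∂ν) ^ (1 / p)

/-- `‖F‖_{p,μ} = sup_{0 ≤ τ < 1} M_p(τ; F; μ)` -/
noncomputable def norm (p : ℝ) (ν : Measure ℝ) (F : ℂ → ℂ) : ℝ≥0∞ :=
  ⨆ τ ∈ Ico (0 : ℝ) 1, M p ν F τ

/-- the class `E^p(μ)` -/
def MemE (p : ℝ) (ν : Measure ℝ) (F : ℂ → ℂ) : Prop :=
  DifferentiableOn ℂ F (ball 0 1) ∧ norm p ν F < ⊤

/-- weak invertibility in `E^p(μ)` -/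
def WeaklyInvertible (p : ℝ) (ν : Measure ℝ) (f : ℂ → ℂ) : Prop :=
  ∃ q : ℕ → Polynomial ℂ,
    Tendsto (fun n => norm p ν fun z => (q n).eval z * f z - 1) atTop (𝓝 0)

end Pool.Agent.Results.MP_2c3223_an.SquareNotWeaklyInvertible

namespace Pool.Agent.V110.WI

theorem nu_apply (p : ℝ) {S : Set ℝ} (hS : MeasurableSet S) :
    nu p S = ∑' k : ℕ, ENNReal.ofReal (wt p k) * S.indicator 1 (rad (k + 1)) := by
  unfold nu
  rw [Measure.sum_apply _ hS]
  congr 1
  ext k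
  rw [Measure.smul_apply, Measure.dirac_apply' _ hS, smul_eq_mul]

theorem nu_radial {p : ℝ} (hp : 1 ≤ p) :
    Results.MP_2c3223_an.SquareNotWeaklyInvertible.IsRadial (nu p) where
  finite := by
    rw [nu_apply p MeasurableSet.univ]
    refine lt_of_le_of_lt (b := (1 : ℝ≥0∞)) ?_ ENNReal.one_lt_top
    rw [← tsum_half]
    refine ENNReal.tsum_le_tsum fun k => ?_
    rw [indicator_univ, Pi.one_apply, mul_one]
    apply ENNReal.ofReal_le_ofReal
    unfold wt
    have h1 : Real.exp (-(p * Lv (k + 1))) ≤ 1 := by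
      apply Real.exp_le_one_iff.2
      have := Lv_nonneg (k + 1)
      nlinarith
    have h2 : (0 : ℝ) < (1 / 2) ^ (k + 1) := by positivity
    nlinarith
  supp := by
    rw [nu_apply p measurableSet_Icc.compl, ENNReal.tsum_eq_zero]
    intro k
    rw [indicator_of_notMem, mul_zero]
    rw [notMem_compl_iff]
    exact ⟨(rad_pos _).le, (rad_lt_one _).le⟩
  zero := by
    rw [nu_apply p (measurableSet_singleton 0), ENNReal.tsum_eq_zero]
    intro k
    rw [indicator_of_notMem, mul_zero]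
    exact (rad_pos _).ne'
  pos := by
    intro τ _ hτ
    obtain ⟨k, hk⟩ := exists_rad hτ
    rw [nu_apply p measurableSet_Icc]
    refine lt_of_lt_of_le ?_ (ENNReal.le_tsum k)
    rw [indicator_of_mem, Pi.one_apply, mul_one]
    · exact ENNReal.ofReal_pos.2 (wt_pos p k)
    · exact ⟨hk.le.trans (rad_lt_succ k).le, (rad_lt_one _).le⟩

end Pool.Agent.V110.WI

namespace Pool.Agent.Results.MP_2c3223_an.SquareNotWeaklyInvertible

open Pool.Agent.V110.WI

/-- **Q1 has a negative answer, for every `p ≥ 1`**, even with both factors equal. -/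
theorem result (p : ℝ) (hp : 1 ≤ p) : ∃ ν : Measure ℝ, IsRadial ν ∧ ∃ g : ℂ → ℂ,
    MemE p ν g ∧ MemE p ν (fun z => g z * g z) ∧
    WeaklyInvertible p ν g ∧ ¬ WeaklyInvertible p ν (fun z => g z * g z) := by
  obtain ⟨U, hU, hUA⟩ := exists_U
  have hsq : (fun z => Complex.exp (U z / 2) * Complex.exp (U z / 2)) =
      fun z => Complex.exp (U z) := by
    ext z
    rw [← Complex.exp_add]
    congr 1
    ring
  refine ⟨nu p, nu_radial hp, fun z => Complex.exp (U z / 2), ⟨(hU.div_const 2).cexp,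
    g_mem hUA hp⟩, ?_, g_wi hUA hp, ?_⟩
  · rw [hsq]
    exact ⟨hU.cexp, f_mem hUA hp⟩
  · rw [hsq]
    exact f_not_wi hU hUA hp

end Pool.Agent.Results.MP_2c3223_an.SquareNotWeaklyInvertible
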